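import Pool.Agent.TH290.Cp.Lim

set_option autoImplicit false
open MeasureTheory Metric Set Filter Topology Complex
open scoped ContDiff ENNReal ComplexConjugate NNReal

namespace Pool.Agent.TH290.Cp

theorem final : ∃ (P : Set ℂ) (f : ℂ → ℂ), P.Nonempty ∧ Perfect P ∧ IsTotallyDisconnected P ∧
    Continuous f ∧ (∀ z, z ∉ P → DifferentiableAt ℂ f z) ∧ (∀ p ∈ P, ¬ AnalyticAt ℂ f p) ∧
    IsTotallyDisconnected (f '' P) := by
  obtain ⟨g, M, P₀, hM0, hlip, hPc, hPtd, hhol, hbd, hne⟩ := main
  set lam : ℝ := 1 / (2 * (M + 1)) with hlam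
  have hlam0 : 0 < lam := by positivity
  have hlM : lam * M ≤ 1 / 2 := by
    rw [hlam]
    rw [div_mul_eq_mul_div, div_le_div_iff₀ (by positivity) (by norm_num)]
    linarith
  have hlc : (lam : ℂ) ≠ 0 := by exact_mod_cast hlam0.ne'
  let f : ℂ → ℂ := fun z => z + lam * g z
  have hgc : Continuous g := by
    have : LipschitzWith ⟨M, hM0⟩ g := LipschitzWith.of_dist_le_mul fun x y => by
      rw [dist_eq_norm, dist_eq_norm]
      exact hlip x y
    exact this.continuous
  have hfc : Continuous f := continuous_id.add (continuous_const.mul hgc)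
  have hgl : ∀ z w, ‖(lam : ℂ) * g z - lam * g w‖ ≤ 1 / 2 * ‖z - w‖ := by
    intro z w
    rw [← mul_sub, norm_mul, norm_real, Real.norm_of_nonneg hlam0.le]
    calc lam * ‖g z - g w‖ ≤ lam * (M * ‖z - w‖) := by
          gcongr
          exact hlip z w
      _ = (lam * M) * ‖z - w‖ := by ring
      _ ≤ 1 / 2 * ‖z - w‖ := by gcongr
  have hanti : AntilipschitzWith 2 f := by
    apply AntilipschitzWith.of_le_mul_dist
    intro x y
    rw [dist_eq_norm, dist_eq_norm]
    have e : f x - f y = (x - y) + ((lam : ℂ) * g x - lam * g y) := by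
      simp only [f]
      ring
    have h1 := hgl x y
    have h2 : ‖x - y‖ ≤ ‖f x - f y‖ + ‖(lam : ℂ) * g x - lam * g y‖ := by
      have := norm_sub_le (f x - f y) ((lam : ℂ) * g x - lam * g y)
      rw [e] at this ⊢
      simpa using this
    push_cast
    linarith
  have hunif : UniformContinuous f := by
    have : LipschitzWith 2 f := LipschitzWith.of_dist_le_mul fun x y => by
      rw [dist_eq_norm, dist_eq_norm]
      have e : f x - f y = (x - y) + ((lam : ℂ) * g x - lam * g y) := by
        simp only [f]
        ring
      rw [e]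
      have h1 := hgl x y
      have h2 := norm_add_le (x - y) ((lam : ℂ) * g x - lam * g y)
      have h3 := norm_nonneg (x - y)
      push_cast
      linarith
    exact this.uniformContinuous
  have hemb : Topology.IsClosedEmbedding f := hanti.isClosedEmbedding hunif
  let P : Set ℂ := {z | ¬ AnalyticAt ℂ f z}
  have hclosed : IsClosed P := by
    have : IsOpen {z | AnalyticAt ℂ f z} := isOpen_analyticAt ℂ f
    exact isClosed_compl_iff.2 this
  have hfd : ∀ z, z ∉ P₀ → DifferentiableAt ℂ f z := fun z hz =>
    differentiableAt_id.add ((hhol z hz).const_mul _)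
  have hPsub : P ⊆ P₀ := by
    intro z hz
    by_contra h
    apply hz
    have hopen : IsOpen P₀ᶜ := hPc.isClosed.isOpen_compl
    have hd : DifferentiableOn ℂ f P₀ᶜ := fun w hw => (hfd w hw).differentiableWithinAt
    exact hd.analyticAt (hopen.mem_nhds h)
  have htd : IsTotallyDisconnected P := fun t ht hp => hPtd t (ht.trans hPsub) hp
  refine ⟨P, f, ?_, ⟨hclosed, ?_⟩, htd, hfc, ?_, fun p hp => hp, ?_⟩
  · -- nonempty
    by_contra hempty
    rw [not_nonempty_iff_eq_empty] at hempty
    have han : ∀ z, DifferentiableAt ℂ f z := by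
      intro z
      by_contra h
      have : z ∈ P := fun h' => h h'.differentiableAt
      rw [hempty] at this
      exact this
    have hgd : Differentiable ℂ g := by
      intro z
      have h1 : DifferentiableAt ℂ (fun z => (lam : ℂ)⁻¹ * (f z - z)) z :=
        ((han z).sub differentiableAt_id).const_mul _
      refine h1.congr_of_eventuallyEq (Eventually.of_forall fun w => ?_)
      simp only [f]
      field_simp
      ring
    have hb : Bornology.IsBounded (range g) := by
      rw [isBounded_iff_forall_norm_le]
      refine ⟨2, ?_⟩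
      rintro _ ⟨z, rfl⟩
      exact hbd z
    exact hne (hgd.apply_eq_apply_of_bounded hb 0 3)
  · -- no isolated points
    intro p hp
    rw [accPt_iff_frequently]
    by_contra hfreq
    rw [not_frequently] at hfreq
    apply hp
    apply Complex.analyticAt_of_differentiable_on_punctured_nhds_of_continuousAt
    · rw [eventually_nhdsWithin_iff]
      filter_upwards [hfreq] with z hz hzp
      have : z ∉ P := fun h => hz ⟨hzp, h⟩
      have h2 : AnalyticAt ℂ f z := by
        by_contra h
        exact this h
      exact h2.differentiableAt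
    · exact hfc.continuousAt
  · intro z hz
    have h2 : AnalyticAt ℂ f z := by
      by_contra h
      exact hz h
    exact h2.differentiableAt
  · exact (hemb.isEmbedding.isTotallyDisconnected_image).2 htd

end Pool.Agent.TH290.Cp
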