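import Pool.Agent.Helper366.IV.Rep

set_option autoImplicit false
open MeasureTheory Metric Set Filter Topology Complex
open scoped ContDiff ENNReal ComplexConjugate

namespace Pool.Agent.TH290.Cp

/-- the far part of the Cauchy kernel: `1/t` for `s ≤ |t|` and `conj t / s²` for `|t| ≤ s`. -/
noncomputable def kF (s : ℝ) (t : ℂ) : ℂ := conj t * (((max ‖t‖ s) ^ 2)⁻¹ : ℝ)

/-- the near part of the Cauchy kernel -/
noncomputable def kN (s : ℝ) (t : ℂ) : ℂ := t⁻¹ - kF s t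

theorem kF_cont {s : ℝ} (hs : 0 < s) : Continuous (kF s) := by
  unfold kF
  refine Complex.continuous_conj.mul (continuous_ofReal.comp ?_)
  refine Continuous.inv₀ (by fun_prop) ?_
  intro t
  have : 0 < max ‖t‖ s := lt_max_of_lt_right hs
  positivity

theorem kF_norm {s : ℝ} (hs : 0 < s) (t : ℂ) : ‖kF s t‖ ≤ s⁻¹ := by
  unfold kF
  have hm : 0 < max ‖t‖ s := lt_max_of_lt_right hs
  rw [norm_mul, RCLike.norm_conj, norm_real, Real.norm_of_nonneg (by positivity)]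
  have h1 : ‖t‖ ≤ max ‖t‖ s := le_max_left _ _
  have h2 : s ≤ max ‖t‖ s := le_max_right _ _
  calc ‖t‖ * (max ‖t‖ s ^ 2)⁻¹ ≤ max ‖t‖ s * (max ‖t‖ s ^ 2)⁻¹ := by gcongr
    _ = (max ‖t‖ s)⁻¹ := by field_simp
    _ ≤ s⁻¹ := by gcongr

theorem kN_far {s : ℝ} (hs : 0 < s) {t : ℂ} (h : s ≤ ‖t‖) : kN s t = 0 := by
  unfold kN kF
  rw [max_eq_left h]
  have ht : t ≠ 0 := by
    intro h0
    rw [h0, norm_zero] at h
    linarith
  rw [sub_eq_zero, ← Complex.normSq_eq_norm_sq, Complex.ofReal_inv, Complex.normSq_eq_conj_mul_self]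
  have : conj t ≠ 0 := by simpa using ht
  field_simp

theorem kN_norm {s : ℝ} (hs : 0 < s) (t : ℂ) : ‖kN s t‖ ≤ ‖t‖⁻¹ := by
  rcases le_or_gt s ‖t‖ with h | h
  · rw [kN_far hs h, norm_zero]
    positivity
  · rcases eq_or_ne t 0 with rfl | ht
    · simp [kN, kF]
    · have e : kN s t = t⁻¹ * ((1 - ‖t‖ ^ 2 / s ^ 2 : ℝ) : ℂ) := by
        unfold kN kF
        rw [max_eq_right h.le]
        have h3 : conj t = t⁻¹ * ((‖t‖ ^ 2 : ℝ) : ℂ) := by
          rw [← Complex.normSq_eq_norm_sq, Complex.normSq_eq_conj_mul_self]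
          field_simp
        rw [h3]
        push_cast
        ring
      rw [e, norm_mul, norm_inv, norm_real]
      have h1 : 0 < ‖t‖ := norm_pos_iff.2 ht
      have h2 : ‖t‖ ^ 2 / s ^ 2 ≤ 1 := by
        rw [div_le_one (by positivity)]
        gcongr
      have h3 : 0 ≤ ‖t‖ ^ 2 / s ^ 2 := by positivity
      have h4 : ‖1 - ‖t‖ ^ 2 / s ^ 2‖ ≤ 1 := by
        rw [Real.norm_eq_abs, abs_le]
        constructor <;> linarith
      calc ‖t‖⁻¹ * ‖1 - ‖t‖ ^ 2 / s ^ 2‖ ≤ ‖t‖⁻¹ * 1 := by gcongr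
        _ = ‖t‖⁻¹ := mul_one _

theorem kF_lip {s : ℝ} (hs : 0 < s) (t u : ℂ) : ‖kF s t - kF s u‖ ≤ 3 / s ^ 2 * ‖t - u‖ := by
  set a := max ‖t‖ s with ha
  set b := max ‖u‖ s with hb
  have ha0 : 0 < a := lt_max_of_lt_right hs
  have hb0 : 0 < b := lt_max_of_lt_right hs
  have has : s ≤ a := le_max_right _ _
  have hbs : s ≤ b := le_max_right _ _
  have hub : ‖u‖ ≤ b := le_max_left _ _
  have hab : |b - a| ≤ ‖t - u‖ := by
    have h1 : |b - a| ≤ |‖u‖ - ‖t‖| := by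
      have := abs_max_sub_max_le_abs ‖u‖ ‖t‖ s
      simpa [ha, hb] using this
    have h2 := abs_norm_sub_norm_le u t
    rw [norm_sub_rev] at h2
    exact h1.trans h2
  have e : kF s t - kF s u = (conj t - conj u) * ((a ^ 2)⁻¹ : ℝ)
      + conj u * (((a ^ 2)⁻¹ - (b ^ 2)⁻¹ : ℝ) : ℂ) := by
    unfold kF
    rw [← ha, ← hb]
    push_cast
    ring
  have e2 : (a ^ 2)⁻¹ - (b ^ 2)⁻¹ = (b - a) * ((b + a) / (a ^ 2 * b ^ 2)) := by
    field_simp
    ring
  rw [e]
  refine (norm_add_le _ _).trans ?_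
  rw [norm_mul, norm_mul, ← map_sub, RCLike.norm_conj, RCLike.norm_conj, norm_real, norm_real,
    Real.norm_of_nonneg (by positivity), e2, norm_mul, Real.norm_eq_abs,
    Real.norm_of_nonneg (by positivity)]
  have h1 : ‖t - u‖ * (a ^ 2)⁻¹ ≤ ‖t - u‖ * (s ^ 2)⁻¹ := by gcongr
  have h2 : ‖u‖ * (|b - a| * ((b + a) / (a ^ 2 * b ^ 2))) ≤
      b * (‖t - u‖ * ((b + a) / (a ^ 2 * b ^ 2))) := by gcongr
  have h3 : b * (‖t - u‖ * ((b + a) / (a ^ 2 * b ^ 2))) =
      ‖t - u‖ * ((a ^ 2)⁻¹ + (a * b)⁻¹) := by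
    field_simp
  have h4 : (a ^ 2)⁻¹ + (a * b)⁻¹ ≤ (s ^ 2)⁻¹ + (s * s)⁻¹ := by gcongr
  have h5 : ‖t - u‖ * ((a ^ 2)⁻¹ + (a * b)⁻¹) ≤ ‖t - u‖ * ((s ^ 2)⁻¹ + (s * s)⁻¹) := by gcongr
  calc _ ≤ ‖t - u‖ * (s ^ 2)⁻¹ + ‖t - u‖ * ((s ^ 2)⁻¹ + (s * s)⁻¹) := by linarith
    _ = 3 / s ^ 2 * ‖t - u‖ := by
      field_simp
      ring

theorem inv_norm_int (s : ℝ) (hs : 0 < s) : IntegrableOn (fun t : ℂ => ‖t‖⁻¹) (ball 0 s) := by
  have := (Helper366.IV.inv_int733 s).norm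
  simp only [norm_inv] at this
  exact this

theorem inv_norm_val (s : ℝ) (hs : 0 < s) : ∫ t in ball (0:ℂ) s, ‖t‖⁻¹ = 2 * Real.pi * s := by
  have h := integral_fun_norm_addHaar (volume : Measure ℂ) (fun y : ℝ => (Iio s).indicator (fun y => y⁻¹) y)
  rw [← integral_indicator measurableSet_ball]
  have e : (fun x : ℂ => (Iio s).indicator (fun y : ℝ => y⁻¹) ‖x‖) =
      (ball (0:ℂ) s).indicator (fun t => ‖t‖⁻¹) := by
    funext x
    by_cases hx : ‖x‖ < s
    · rw [indicator_of_mem (by exact hx), indicator_of_mem (by simpa using hx)]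
    · rw [indicator_of_notMem (by exact hx), indicator_of_notMem (by simpa using hx)]
  rw [← e, h, Complex.finrank_real_complex]
  have e2 : ∫ y in Ioi (0:ℝ), y ^ (2 - 1) • (Iio s).indicator (fun y : ℝ => y⁻¹) y = s := by
    have : ∫ y in Ioi (0:ℝ), y ^ (2 - 1) • (Iio s).indicator (fun y : ℝ => y⁻¹) y =
        ∫ y in Ioi (0:ℝ), (Iio s).indicator (fun _ : ℝ => (1:ℝ)) y := by
      refine setIntegral_congr_fun measurableSet_Ioi ?_
      intro y hy
      have hy' : (0:ℝ) < y := hy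
      by_cases hx : y < s
      · simp only []
        rw [indicator_of_mem (show y ∈ Iio s from hx), indicator_of_mem (show y ∈ Iio s from hx)]
        simp [hy'.ne']
      · simp only []
        rw [indicator_of_notMem (show y ∉ Iio s from hx), indicator_of_notMem (show y ∉ Iio s from hx)]
        simp
    rw [this, integral_indicator measurableSet_Iio, Measure.restrict_restrict measurableSet_Iio]
    have : Iio s ∩ Ioi 0 = Ioo 0 s := by
      ext y
      simp [and_comm]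
    rw [this]
    simp [hs.le]
  rw [e2]
  have e3 : (volume : Measure ℂ).real (ball 0 1) = Real.pi := by
    simp [Measure.real, Complex.volume_ball]
  rw [e3]
  simp
  ring

theorem kN_int {s : ℝ} (hs : 0 < s) : Integrable (kN s) := by
  have h1 : IntegrableOn (kN s) (ball 0 s) := by
    refine Integrable.mono' (inv_norm_int s hs) ?_ (ae_of_all _ (kN_norm hs))
    exact (measurable_inv.sub (kF_cont hs).measurable).aestronglyMeasurable
  rw [← integrableOn_univ]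
  refine h1.of_forall_sdiff_eq_zero MeasurableSet.univ ?_
  rintro x ⟨_, hx⟩
  apply kN_far hs
  simpa using hx

theorem kN_val {s : ℝ} (hs : 0 < s) : ∫ t, ‖kN s t‖ ≤ 2 * Real.pi * s := by
  rw [← inv_norm_val s hs]
  have e : ∫ t, ‖kN s t‖ = ∫ t in ball (0:ℂ) s, ‖kN s t‖ := by
    rw [setIntegral_eq_integral_of_forall_compl_eq_zero]
    intro x hx
    rw [kN_far hs (by simpa using hx), norm_zero]
  rw [e]
  exact integral_mono_ae (kN_int hs).norm.integrableOn (inv_norm_int s hs) (ae_of_all _ (kN_norm hs))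

end Pool.Agent.TH290.Cp
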