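import Pool.Agent.TH290.Cp.Step

set_option autoImplicit false
open MeasureTheory Metric Set Filter Topology Complex
open scoped ContDiff ENNReal ComplexConjugate

namespace Pool.Agent.TH290.Cp

theorem clm_bound (L : ℂ →L[ℝ] ℂ) : ‖L‖ ≤ ‖dd L‖ + ‖db L‖ := by
  refine L.opNorm_le_bound (by positivity) fun v => ?_
  have e : L v = dd L * v + db L * conj v := by
    have h1 : L v = (v.re : ℂ) * L 1 + (v.im : ℂ) * L I := by
      have h : v = v.re • (1 : ℂ) + v.im • I := by
        simp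
      conv_lhs => rw [h]
      rw [map_add, map_smul, map_smul, real_smul, real_smul]
    rw [h1]
    unfold dd db
    have h2 : v = (v.re : ℂ) + (v.im : ℂ) * I := (Complex.re_add_im v).symm
    have h3 : conj v = (v.re : ℂ) - (v.im : ℂ) * I := by
      apply Complex.ext <;> simp
    rw [h3]
    have h4 : (L 1 - I * L I) / 2 * v + (L 1 + I * L I) / 2 * ((v.re : ℂ) - (v.im : ℂ) * I) =
        (L 1 - I * L I) / 2 * ((v.re : ℂ) + (v.im : ℂ) * I) +
          (L 1 + I * L I) / 2 * ((v.re : ℂ) - (v.im : ℂ) * I) := by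
      conv_lhs => rw [h2]
      simp
    rw [h4]
    linear_combination ((v.im : ℂ) * L I) * I_sq
  rw [e]
  refine (norm_add_le _ _).trans ?_
  rw [norm_mul, norm_mul, RCLike.norm_conj]
  linarith

theorem good_lip {M : ℝ} {g h : ℂ → ℂ} (hg : Good M g h) (z w : ℂ) : ‖g z - g w‖ ≤ M * ‖z - w‖ := by
  have h1 : ∀ x ∈ (univ : Set ℂ), ‖fderiv ℝ g x‖ ≤ M := by
    intro x _
    refine (clm_bound _).trans ?_
    rw [hg.hd]
    exact hg.hM x
  exact Convex.norm_image_sub_le_of_norm_fderiv_le (fun x _ => (hg.gs.differentiable (by simp)) x) h1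
    convex_univ (mem_univ _) (mem_univ _)

theorem good_holo {M : ℝ} {g h : ℂ → ℂ} (hg : Good M g h) {z : ℂ} (hz : z ∉ tsupport h) :
    DifferentiableAt ℂ g z := by
  rw [differentiableAt_complex_iff_differentiableAt_real]
  refine ⟨(hg.gs.differentiable (by simp)) z, ?_⟩
  have h1 := hg.hd z
  rw [image_eq_zero_of_notMem_tsupport hz] at h1
  unfold db at h1
  have h2 : fderiv ℝ g z 1 + I * fderiv ℝ g z I = 0 := by
    have := (div_eq_zero_iff.1 h1)
    rcases this with h | h
    · exact h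
    · norm_num at h
  rw [smul_eq_mul]
  linear_combination (-I) * h2 + (fderiv ℝ g z I) * I_sq

/-- the starting function: a bump. -/
theorem start : ∃ (M : ℝ) (g h : ℂ → ℂ), Good M g h ∧ (∀ z, ‖g z‖ ≤ 1) ∧ g 0 = 1 ∧ g 3 = 0 := by
  let b : ContDiffBump (0:ℂ) := ⟨1, 2, one_pos, one_lt_two⟩
  let g : ℂ → ℂ := fun z => (b z : ℂ)
  have hgs : ContDiff ℝ ∞ g := ofRealCLM.contDiff.comp b.contDiff
  have hgc : HasCompactSupport g := b.hasCompactSupport.comp_left (g := fun x : ℝ => (x:ℂ)) (by simp)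
  have hDc : Continuous (fderiv ℝ g) := hgs.continuous_fderiv (by simp)
  obtain ⟨K, hK⟩ := hDc.bounded_above_of_compact_support (hgc.fderiv ℝ)
  refine ⟨K + K, g, fun z => db (fderiv ℝ g z), ⟨hgs, db_smooth hgs, ?_, fun z => rfl, ?_⟩, ?_, ?_, ?_⟩
  · exact HasCompactSupport.intro hgc.isCompact (fun z hz => db_supp hz)
  · intro z
    exact add_le_add ((dd_norm _).trans (hK z)) ((db_norm _).trans (hK z))
  · intro z
    simp only [g]
    rw [norm_real, Real.norm_of_nonneg b.nonneg]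
    exact b.le_one
  · simp only [g]
    rw [b.one_of_mem_closedBall (by simp [b])]
    simp
  · simp only [g]
    rw [b.zero_of_le_dist (by simp [b]; norm_num)]
    simp

/-- a state of the construction -/
structure St where
  M : ℝ
  g : ℂ → ℂ
  h : ℂ → ℂ
  good : Good M g h

theorem exists_next (s : St) (e : ℂ) (he : ‖e‖ = 1) (c : ℝ) (ε : ℝ) (hε : 0 < ε) :
    ∃ s' : St, s'.M = s.M + ε ∧ tsupport s'.h ⊆ tsupport s.h ∧
      (∀ z ∈ tsupport s'.h, (conj e * z).re ≠ c) ∧ ∀ z, ‖s'.g z - s.g z‖ ≤ ε := by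
  obtain ⟨g', h', h1, h2, h3, h4⟩ := step s.good he c hε
  exact ⟨⟨_, g', h', h1⟩, rfl, h2, h3, h4⟩

/-- direction of the `n`-th line -/
noncomputable def dir (b : Bool) : ℂ := if b then 1 else I

theorem dir_norm (b : Bool) : ‖dir b‖ = 1 := by
  unfold dir
  split_ifs <;> simp

/-- **Main construction**: a Lipschitz function, not constant, bounded, holomorphic off a compact
totally disconnected set. -/
theorem main : ∃ (g : ℂ → ℂ) (M : ℝ) (P : Set ℂ), 0 ≤ M ∧ (∀ z w, ‖g z - g w‖ ≤ M * ‖z - w‖) ∧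
    IsCompact P ∧ IsTotallyDisconnected P ∧ (∀ z, z ∉ P → DifferentiableAt ℂ g z) ∧
    (∀ z, ‖g z‖ ≤ 2) ∧ g 0 ≠ g 3 := by
  obtain ⟨M, g₀, h₀, hgood, hb, h0, h3⟩ := start
  obtain ⟨en, hen⟩ := exists_surjective_nat (Bool × ℚ)
  choose nx hnM hnt hnl hnc using fun (s : St) (p : (Bool × ℚ) × {ε : ℝ // 0 < ε}) =>
    exists_next s (dir p.1.1) (dir_norm _) (p.1.2 : ℝ) p.2.1 p.2.2
  let ε : ℕ → {ε : ℝ // 0 < ε} := fun n => ⟨(1/4) * (1/2) ^ (n+1), by positivity⟩
  let sq : ℕ → St := fun n => Nat.rec ⟨M, g₀, h₀, hgood⟩ (fun n s => nx s (en n, ε n)) n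
  have hsq0 : sq 0 = ⟨M, g₀, h₀, hgood⟩ := rfl
  have hsq : ∀ n, sq (n+1) = nx (sq n) (en n, ε n) := fun n => rfl
  have hM : ∀ n, (sq n).M = M + (1/4) * (1 - (1/2) ^ n) := by
    intro n
    induction n with
    | zero => simp [hsq0]
    | succ n ih =>
      rw [hsq, hnM, ih]
      simp only [ε]
      ring
  have hM1 : ∀ n, (sq n).M ≤ M + 1 := by
    intro n
    rw [hM]
    have : (0:ℝ) ≤ (1/2) ^ n := by positivity
    linarith
  have hsub : ∀ n, tsupport (sq (n+1)).h ⊆ tsupport (sq n).h := by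
    intro n
    rw [hsq]
    exact hnt _ _
  have hanti : Antitone (fun n => tsupport (sq n).h) := antitone_nat_of_succ_le hsub
  have hstep : ∀ n z, ‖(sq (n+1)).g z - (sq n).g z‖ ≤ (1/4) * (1/2) ^ (n+1) := by
    intro n z
    rw [hsq]
    exact hnc _ _ z
  -- convergence
  have hdist : ∀ z n, dist ((sq n).g z) ((sq (n+1)).g z) ≤ (1/4) / 2 / 2 ^ n := by
    intro z n
    rw [dist_comm, dist_eq_norm]
    refine (hstep n z).trans (le_of_eq ?_)
    rw [pow_succ, one_div_pow]
    ring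
  have hcau : ∀ z, CauchySeq (fun n => (sq n).g z) := fun z =>
    cauchySeq_of_le_geometric_two (hdist z)
  choose g hg using fun z => cauchySeq_tendsto_of_complete (hcau z)
  have hgd : ∀ z n, dist ((sq n).g z) (g z) ≤ (1/4) / 2 ^ n := fun z n =>
    dist_le_of_le_geometric_two_of_tendsto (hdist z) (hg z) n
  have hgd0 : ∀ z, ‖g z - g₀ z‖ ≤ 1/4 := by
    intro z
    have h := hgd z 0
    rw [dist_comm, dist_eq_norm] at h
    simpa [hsq0] using h
  have hunif : TendstoUniformly (fun n z => (sq n).g z) g atTop := by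
    rw [Metric.tendstoUniformly_iff]
    intro δ hδ
    have hlim : Tendsto (fun n : ℕ => (1/4 : ℝ) / 2 ^ n) atTop (𝓝 0) := by
      have := (tendsto_pow_atTop_nhds_zero_of_lt_one (r := (1/2:ℝ)) (by norm_num) (by norm_num)).const_mul (1/4)
      rw [mul_zero] at this
      refine this.congr fun n => ?_
      rw [one_div_pow]
      ring
    filter_upwards [hlim.eventually_lt_const hδ] with n hn z
    rw [dist_comm]
    exact (hgd z n).trans_lt hn
  refine ⟨g, |M + 1|, ⋂ n, tsupport (sq n).h, abs_nonneg _, ?_, ?_, ?_, ?_, ?_, ?_⟩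
  · intro z w
    have hlim : Tendsto (fun n => ‖(sq n).g z - (sq n).g w‖) atTop (𝓝 ‖g z - g w‖) :=
      ((hg z).sub (hg w)).norm
    refine le_of_tendsto' hlim fun n => ?_
    refine (good_lip (sq n).good z w).trans ?_
    gcongr
    exact (hM1 n).trans (le_abs_self _)
  · exact (sq 0).good.hc.isCompact.of_isClosed_subset (isClosed_iInter fun n => isClosed_tsupport _)
      (iInter_subset _ 0)
  · have hav : ∀ (b : Bool) (q : ℚ), ∀ z ∈ ⋂ n, tsupport (sq n).h, (conj (dir b) * z).re ≠ q := by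
      intro b q z hz
      obtain ⟨n, hn⟩ := hen (b, q)
      have h1 := mem_iInter.1 hz (n+1)
      rw [hsq, hn] at h1
      exact hnl _ _ z h1
    have hkey : ∀ (b : Bool) (t : Set ℂ), t ⊆ ⋂ n, tsupport (sq n).h → IsPreconnected t →
        ∀ x ∈ t, ∀ y ∈ t, (conj (dir b) * x).re = (conj (dir b) * y).re := by
      intro b t ht hpre x hx y hy
      by_contra hne
      have hpre2 : IsPreconnected ((fun z : ℂ => (conj (dir b) * z).re) '' t) :=
        hpre.image _ (Continuous.continuousOn (by fun_prop))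
      rcases lt_or_gt_of_ne hne with hlt | hlt
      · obtain ⟨q, hq1, hq2⟩ := exists_rat_btwn hlt
        obtain ⟨z, hz, hzq⟩ := hpre2.ordConnected.out (mem_image_of_mem _ hx) (mem_image_of_mem _ hy)
          ⟨hq1.le, hq2.le⟩
        exact hav b q z (ht hz) hzq
      · obtain ⟨q, hq1, hq2⟩ := exists_rat_btwn hlt
        obtain ⟨z, hz, hzq⟩ := hpre2.ordConnected.out (mem_image_of_mem _ hy) (mem_image_of_mem _ hx)
          ⟨hq1.le, hq2.le⟩
        exact hav b q z (ht hz) hzq
    intro t ht hpre x hx y hy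
    have h1 := hkey true t ht hpre x hx y hy
    have h2 := hkey false t ht hpre x hx y hy
    simp [dir] at h1 h2
    exact Complex.ext h1 h2
  · intro z hz
    rw [mem_iInter] at hz
    push Not at hz
    obtain ⟨N, hN⟩ := hz
    have hopen : IsOpen (tsupport (sq N).h)ᶜ := (isClosed_tsupport _).isOpen_compl
    have hloc : TendstoLocallyUniformlyOn (fun n z => (sq n).g z) g atTop (tsupport (sq N).h)ᶜ :=
      hunif.tendstoUniformlyOn.tendstoLocallyUniformlyOn
    have hd : DifferentiableOn ℂ g (tsupport (sq N).h)ᶜ := by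
      refine hloc.differentiableOn ?_ hopen
      filter_upwards [eventually_ge_atTop N] with n hn w hw
      exact (good_holo (sq n).good (fun h => hw (hanti hn h))).differentiableWithinAt
    exact hd.differentiableAt (hopen.mem_nhds hN)
  · intro z
    have h1 := hgd0 z
    have h2 := hb z
    have h3 : ‖g z‖ ≤ ‖g z - g₀ z‖ + ‖g₀ z‖ := by
      have := norm_add_le (g z - g₀ z) (g₀ z)
      simpa using this
    linarith
  · intro heq
    have h1 := hgd0 0
    have h2 := hgd0 3
    rw [h0] at h1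
    rw [h3, sub_zero] at h2
    rw [heq] at h1
    have h4 : (1:ℝ) ≤ ‖g 3 - 1‖ + ‖g 3‖ := by
      have := norm_sub_le (g 3) (g 3 - 1)
      rw [sub_sub_cancel, norm_one] at this
      linarith
    linarith

end Pool.Agent.TH290.Cp
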