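import Mathlib

set_option autoImplicit false
open MeasureTheory Metric Set Filter Topology
open scoped ContDiff

namespace Pool.Agent.TH290.Cp

theorem profile : ∃ (β r : ℝ → ℝ) (B L : ℝ), ContDiff ℝ ∞ β ∧ ContDiff ℝ ∞ r ∧
    (∀ x, HasDerivAt r (β x) x) ∧ (∀ x, 0 ≤ β x) ∧ (∀ x, β x ≤ 1) ∧ (∀ x, |x| ≤ 1 → β x = 1) ∧
    0 < B ∧ (∀ x, |r x| ≤ B) ∧ 0 ≤ L ∧ (∀ x y, |β x * r x - β y * r y| ≤ L * |x - y|) := by
  let b : ContDiffBump (0:ℝ) := ⟨1, 2, one_pos, one_lt_two⟩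
  have hbs : ContDiff ℝ ∞ (b : ℝ → ℝ) := b.contDiff
  have hbc : Continuous (b : ℝ → ℝ) := hbs.continuous
  have hbi : Integrable (b : ℝ → ℝ) := hbc.integrable_of_hasCompactSupport b.hasCompactSupport
  have hd : ∀ x, HasDerivAt (fun x => ∫ t in (0:ℝ)..x, b t) (b x) x := fun x =>
    intervalIntegral.integral_hasDerivAt_right (hbc.intervalIntegrable _ _)
      (hbc.stronglyMeasurableAtFilter _ _) hbc.continuousAt
  have hrs : ContDiff ℝ ∞ (fun x => ∫ t in (0:ℝ)..x, b t) := by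
    rw [contDiff_infty_iff_deriv]
    refine ⟨fun x => (hd x).differentiableAt, ?_⟩
    have : deriv (fun x => ∫ t in (0:ℝ)..x, b t) = b := by
      funext x
      exact (hd x).deriv
    rw [this]
    exact hbs
  have hqs : ContDiff ℝ 1 (fun x => b x * ∫ t in (0:ℝ)..x, b t) :=
    (hbs.mul hrs).of_le (by exact_mod_cast le_top)
  have hqc : HasCompactSupport (fun x => b x * ∫ t in (0:ℝ)..x, b t) :=
    b.hasCompactSupport.mul_right
  obtain ⟨C, hC⟩ := hqs.lipschitzWith_of_hasCompactSupport hqc (by norm_num)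
  refine ⟨b, fun x => ∫ t in (0:ℝ)..x, b t, (∫ t, ‖b t‖) + 1, C, hbs, hrs, hd, fun x => b.nonneg,
    fun x => b.le_one, fun x hx => b.one_of_mem_closedBall ?_, ?_, fun x => ?_, C.2, fun x y => ?_⟩
  · simpa using hx
  · have : 0 ≤ ∫ t, ‖b t‖ := integral_nonneg fun _ => norm_nonneg _
    linarith
  · have h1 := intervalIntegral.norm_integral_le_integral_norm_uIoc (f := (b : ℝ → ℝ)) (a := 0) (b := x)
      (μ := volume)
    have h2 : ∫ t in Set.uIoc 0 x, ‖b t‖ ≤ ∫ t, ‖b t‖ :=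
      setIntegral_le_integral hbi.norm (ae_of_all _ fun _ => norm_nonneg _)
    rw [Real.norm_eq_abs] at h1
    linarith
  · have := hC.dist_le_mul x y
    simpa [Real.dist_eq] using this

end Pool.Agent.TH290.Cp
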