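import Pool.Agent.TH290.Cp.Tr
import Pool.Agent.TH290.Cp.Prof

set_option autoImplicit false
open MeasureTheory Metric Set Filter Topology Complex
open scoped ContDiff ENNReal ComplexConjugate

namespace Pool.Agent.TH290.Cp

/-- smooth `g` with compactly supported smooth `∂̄g = h` and `|∂g| + |∂̄g| ≤ M`. -/
structure Good (M : ℝ) (g h : ℂ → ℂ) : Prop where
  gs : ContDiff ℝ ∞ g
  hs : ContDiff ℝ ∞ h
  hc : HasCompactSupport h
  hd : ∀ z, db (fderiv ℝ g z) = h z
  hM : ∀ z, ‖dd (fderiv ℝ g z)‖ + ‖h z‖ ≤ M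

theorem db_norm (L : ℂ →L[ℝ] ℂ) : ‖db L‖ ≤ ‖L‖ := by
  unfold db
  rw [norm_div, Complex.norm_ofNat]
  have h1 : ‖L 1‖ ≤ ‖L‖ := by simpa using L.le_opNorm 1
  have h2 : ‖I * L I‖ ≤ ‖L‖ := by
    rw [norm_mul, norm_I, one_mul]
    simpa using L.le_opNorm I
  have := norm_add_le (L 1) (I * L I)
  linarith

theorem dd_norm (L : ℂ →L[ℝ] ℂ) : ‖dd L‖ ≤ ‖L‖ := by
  unfold dd
  rw [norm_div, Complex.norm_ofNat]
  have h1 : ‖L 1‖ ≤ ‖L‖ := by simpa using L.le_opNorm 1
  have h2 : ‖I * L I‖ ≤ ‖L‖ := by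
    rw [norm_mul, norm_I, one_mul]
    simpa using L.le_opNorm I
  have := norm_sub_le (L 1) (I * L I)
  linarith

theorem db_sub (L L' : ℂ →L[ℝ] ℂ) : db (L - L') = db L - db L' := by
  unfold db
  simp only [_root_.sub_apply]
  ring

theorem dd_sub (L L' : ℂ →L[ℝ] ℂ) : dd (L - L') = dd L - dd L' := by
  unfold dd
  simp only [_root_.sub_apply]
  ring

theorem db_smooth {h : ℂ → ℂ} (hs : ContDiff ℝ ∞ h) : ContDiff ℝ ∞ (fun z => db (fderiv ℝ h z)) := by
  unfold db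
  have h1 : ContDiff ℝ ∞ (fderiv ℝ h) := hs.fderiv_right (by simp)
  have h2 : ∀ v : ℂ, ContDiff ℝ ∞ (fun z => fderiv ℝ h z v) := fun v => h1.clm_apply contDiff_const
  exact ((h2 1).add (contDiff_const.mul (h2 I))).div_const _

theorem db_supp {h : ℂ → ℂ} {z : ℂ} (hz : z ∉ tsupport h) : db (fderiv ℝ h z) = 0 := by
  have h1 : z ∉ tsupport (fderiv ℝ h) := fun h2 => hz (tsupport_fderiv_subset ℝ h2)
  rw [image_eq_zero_of_notMem_tsupport h1]
  simp [db]

theorem dd_supp {h : ℂ → ℂ} {z : ℂ} (hz : z ∉ tsupport h) : dd (fderiv ℝ h z) = 0 := by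
  have h1 : z ∉ tsupport (fderiv ℝ h) := fun h2 => hz (tsupport_fderiv_subset ℝ h2)
  rw [image_eq_zero_of_notMem_tsupport h1]
  simp [dd]

/-- Lipschitz functions have small derivative -/
theorem fderiv_of_lip {u : ℂ → ℂ} {ε : ℝ} (hε : 0 ≤ ε) (h : ∀ z w, ‖u z - u w‖ ≤ ε * ‖z - w‖) (z : ℂ) :
    ‖fderiv ℝ u z‖ ≤ ε := by
  have : LipschitzWith ⟨ε, hε⟩ u := by
    apply LipschitzWith.of_dist_le_mul
    intro x y
    rw [dist_eq_norm, dist_eq_norm]
    exact h x y
  exact norm_fderiv_le_of_lipschitz ℝ this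

theorem step {M : ℝ} {g h : ℂ → ℂ} (hg : Good M g h) {e : ℂ} (he : ‖e‖ = 1) (c : ℝ) {ε : ℝ}
    (hε : 0 < ε) : ∃ g' h' : ℂ → ℂ, Good (M + ε) g' h' ∧ tsupport h' ⊆ tsupport h ∧
      (∀ z ∈ tsupport h', (conj e * z).re ≠ c) ∧ ∀ z, ‖g' z - g z‖ ≤ ε := by
  obtain ⟨β, r, B, L, hβs, hrs, hrd, hβ0, hβ1, hβn, hB, hrB, hL0, hL⟩ := profile
  -- bounds for h
  obtain ⟨K₀, hK₀⟩ := hg.hs.continuous.bounded_above_of_compact_support hg.hc
  have hDc : Continuous (fderiv ℝ h) := hg.hs.continuous_fderiv (by simp)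
  obtain ⟨K₁, hK₁⟩ := hDc.bounded_above_of_compact_support (hg.hc.fderiv ℝ)
  have hEs : ContDiff ℝ ∞ (fun z => db (fderiv ℝ h z)) := db_smooth hg.hs
  have hEc : HasCompactSupport (fun z => db (fderiv ℝ h z)) := by
    refine HasCompactSupport.intro hg.hc.isCompact ?_
    intro z hz
    exact db_supp hz
  obtain ⟨K₂, hK₂⟩ := (hEs.of_le (by exact_mod_cast le_top) : ContDiff ℝ 1 _).lipschitzWith_of_hasCompactSupport
    hEc (by norm_num)
  have hK₀0 : 0 ≤ K₀ := (norm_nonneg _).trans (hK₀ 0)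
  have hK₁0 : 0 ≤ K₁ := (norm_nonneg _).trans (hK₁ 0)
  obtain ⟨R, hR0, hR⟩ := hg.hc.isCompact.isBounded.exists_pos_norm_lt
  obtain ⟨η, hη0, hη⟩ := T_small (Λ := 2 * (L * K₁ + B * K₂)) (R := R) (ε := ε / 2) hR0
    (by positivity) (by positivity)
  -- the width
  obtain ⟨w, hw0, hw1, hwη, hwK, hwφ⟩ : ∃ w : ℝ, 0 < w ∧ w ≤ 1 ∧ 2 * B * K₁ * w ≤ η ∧
      4 * B * K₁ * w ≤ ε / 2 ∧ 2 * B * K₀ * w ≤ ε / 2 := by
    refine ⟨min 1 (min (η / (2 * B * K₁ + 1)) (min (ε / 2 / (4 * B * K₁ + 1)) (ε / 2 / (2 * B * K₀ + 1)))),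
      ?_, min_le_left _ _, ?_, ?_, ?_⟩
    · refine lt_min one_pos (lt_min ?_ (lt_min ?_ ?_)) <;> positivity
    · have h1 : min 1 (min (η / (2 * B * K₁ + 1)) (min (ε / 2 / (4 * B * K₁ + 1)) (ε / 2 / (2 * B * K₀ + 1))))
        ≤ η / (2 * B * K₁ + 1) := (min_le_right _ _).trans (min_le_left _ _)
      calc _ ≤ 2 * B * K₁ * (η / (2 * B * K₁ + 1)) := by gcongr
        _ ≤ (2 * B * K₁ + 1) * (η / (2 * B * K₁ + 1)) := by gcongr; linarith
        _ = η := by field_simp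
    · have h1 : min 1 (min (η / (2 * B * K₁ + 1)) (min (ε / 2 / (4 * B * K₁ + 1)) (ε / 2 / (2 * B * K₀ + 1))))
        ≤ ε / 2 / (4 * B * K₁ + 1) := (min_le_right _ _).trans ((min_le_right _ _).trans (min_le_left _ _))
      calc _ ≤ 4 * B * K₁ * (ε / 2 / (4 * B * K₁ + 1)) := by gcongr
        _ ≤ (4 * B * K₁ + 1) * (ε / 2 / (4 * B * K₁ + 1)) := by gcongr; linarith
        _ = ε / 2 := by field_simp
    · have h1 : min 1 (min (η / (2 * B * K₁ + 1)) (min (ε / 2 / (4 * B * K₁ + 1)) (ε / 2 / (2 * B * K₀ + 1))))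
        ≤ ε / 2 / (2 * B * K₀ + 1) := (min_le_right _ _).trans ((min_le_right _ _).trans (min_le_right _ _))
      calc _ ≤ 2 * B * K₀ * (ε / 2 / (2 * B * K₀ + 1)) := by gcongr
        _ ≤ (2 * B * K₀ + 1) * (ε / 2 / (2 * B * K₀ + 1)) := by gcongr; linarith
        _ = ε / 2 := by field_simp
  -- the linear functional
  let ℓ : ℂ →L[ℝ] ℝ := reCLM ∘L (ContinuousLinearMap.mul ℝ ℂ (conj e))
  have hℓ : ∀ z, ℓ z = (conj e * z).re := fun z => rfl
  have hℓn : ∀ z, |ℓ z| ≤ ‖z‖ := by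
    intro z
    rw [hℓ]
    refine (Complex.abs_re_le_norm _).trans ?_
    rw [norm_mul, RCLike.norm_conj, he, one_mul]
  have hℓ1 : (ℓ 1 : ℂ) + I * (ℓ I : ℂ) = e := by
    rw [hℓ, hℓ]
    apply Complex.ext <;> simp
  have hℓ2 : (ℓ 1 : ℂ) - I * (ℓ I : ℂ) = conj e := by
    rw [hℓ, hℓ]
    apply Complex.ext <;> simp
  have hee : conj e * e = 1 := by
    rw [← Complex.normSq_eq_conj_mul_self, Complex.normSq_eq_norm_sq, he]
    simp
  let a : ℂ → ℝ := fun z => (ℓ z - c) / w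
  have has : ContDiff ℝ ∞ a := (ℓ.contDiff.sub contDiff_const).div_const _
  have had : ∀ z, HasFDerivAt a (w⁻¹ • ℓ) z := by
    intro z
    have h1 : HasFDerivAt (fun z => ℓ z - c) ℓ z := ℓ.hasFDerivAt.sub_const c
    have h2 := h1.const_mul w⁻¹
    refine h2.congr_of_eventuallyEq (Eventually.of_forall fun z => ?_)
    simp only [a]
    rw [div_eq_inv_mul]
  let S : ℂ → ℝ := fun z => w * r (a z)
  have hSs : ContDiff ℝ ∞ S := contDiff_const.mul (hrs.comp has)
  have hSd : ∀ z, HasFDerivAt S (β (a z) • ℓ) z := by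
    intro z
    have h1 := ((hrd (a z)).comp_hasFDerivAt z (had z)).const_mul w
    have h2 : w • β (a z) • w⁻¹ • ℓ = β (a z) • ℓ := by
      rw [smul_smul, smul_smul, mul_assoc, mul_comm (β (a z)), ← mul_assoc, mul_inv_cancel₀ hw0.ne',
        one_mul]
    rw [h2] at h1
    exact h1
  have hSB : ∀ z, |S z| ≤ w * B := by
    intro z
    simp only [S]
    rw [abs_mul, abs_of_pos hw0]
    gcongr
    exact hrB _
  let φ : ℂ → ℂ := fun z => (2 * conj e) * ((S z : ℂ) * h z)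
  have hScs : ContDiff ℝ ∞ (fun z => (S z : ℂ)) := ofRealCLM.contDiff.comp hSs
  have hφs : ContDiff ℝ ∞ φ := contDiff_const.mul (hScs.mul hg.hs)
  have hφd : ∀ z v, fderiv ℝ φ z v =
      (2 * conj e) * ((β (a z) * ℓ v : ℝ) * h z + (S z : ℂ) * fderiv ℝ h z v) := by
    intro z v
    have h1 : HasFDerivAt (fun z => (S z : ℂ)) (ofRealCLM ∘L (β (a z) • ℓ)) z :=
      ofRealCLM.hasFDerivAt.comp z (hSd z)
    have h2 : HasFDerivAt h (fderiv ℝ h z) z := ((hg.hs.differentiable (by simp)) z).hasFDerivAt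
    have h3 : HasFDerivAt φ _ z := (h1.mul h2).const_mul (2 * conj e)
    rw [h3.fderiv]
    simp
    ring
  have hφdb : ∀ z, db (fderiv ℝ φ z) = β (a z) * h z + (2 * conj e) * ((S z : ℂ) * db (fderiv ℝ h z)) := by
    intro z
    unfold db
    rw [hφd, hφd]
    push_cast
    linear_combination (conj e * β (a z) * h z) * hℓ1 + (β (a z) * h z) * hee
  have hφdd : ∀ z, dd (fderiv ℝ φ z) = conj e * conj e * (β (a z) * h z) +
      (2 * conj e) * ((S z : ℂ) * dd (fderiv ℝ h z)) := by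
    intro z
    unfold dd
    rw [hφd, hφd]
    push_cast
    linear_combination (conj e * β (a z) * h z) * hℓ2
  let E : ℂ → ℂ := fun z => -(2 * conj e) * ((S z : ℂ) * db (fderiv ℝ h z))
  have hEE : ContDiff ℝ ∞ E := contDiff_const.mul (hScs.mul hEs)
  have hρs : ContDiff ℝ ∞ (fun z => (β (a z) : ℂ)) := ofRealCLM.contDiff.comp (hβs.comp has)
  let F : ℂ → ℂ := fun z => (β (a z) : ℂ) * E z
  have hFs : ContDiff ℝ ∞ F := hρs.mul hEE
  have hF0 : ∀ z, z ∉ tsupport h → F z = 0 := by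
    intro z hz
    simp only [F, E]
    rw [db_supp hz]
    ring
  have hFc : HasCompactSupport F := HasCompactSupport.intro hg.hc.isCompact hF0
  have h2e : ‖(2 * conj e : ℂ)‖ = 2 := by
    rw [norm_mul, RCLike.norm_conj, he, Complex.norm_ofNat, mul_one]
  have hdbB : ∀ z, ‖db (fderiv ℝ h z)‖ ≤ K₁ := fun z => (db_norm _).trans (hK₁ z)
  have hddB : ∀ z, ‖dd (fderiv ℝ h z)‖ ≤ K₁ := fun z => (dd_norm _).trans (hK₁ z)
  have hEn : ∀ z, ‖E z‖ ≤ 2 * B * K₁ * w := by
    intro z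
    simp only [E]
    rw [norm_mul, norm_neg, h2e, norm_mul, norm_real, Real.norm_eq_abs]
    have h1 := hSB z
    have h2 := hdbB z
    calc 2 * (|S z| * ‖db (fderiv ℝ h z)‖) ≤ 2 * ((w * B) * K₁) := by gcongr
      _ = _ := by ring
  have hFn : ∀ z, ‖F z‖ ≤ η := by
    intro z
    simp only [F]
    rw [norm_mul, norm_real, Real.norm_of_nonneg (hβ0 _)]
    calc β (a z) * ‖E z‖ ≤ 1 * (2 * B * K₁ * w) := by
          gcongr
          · exact hβ1 _
          · exact hEn z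
      _ ≤ η := by linarith
  have hFl : ∀ z z', ‖F z - F z'‖ ≤ 2 * (L * K₁ + B * K₂) * ‖z - z'‖ := by
    intro z z'
    have e1 : F z - F z' = -(2 * conj e) * ((((w * (β (a z) * r (a z) - β (a z') * r (a z')) : ℝ)) : ℂ)
        * db (fderiv ℝ h z) + ((w * (β (a z') * r (a z')) : ℝ) : ℂ) *
          (db (fderiv ℝ h z) - db (fderiv ℝ h z'))) := by
      simp only [F, E, S]
      push_cast
      ring
    rw [e1, norm_mul, norm_neg, h2e]
    have h1 : |a z - a z'| ≤ ‖z - z'‖ / w := by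
      have : a z - a z' = ℓ (z - z') / w := by
        simp only [a, map_sub]
        ring
      rw [this, abs_div, abs_of_pos hw0]
      gcongr
      exact hℓn _
    have h2 : ‖(((w * (β (a z) * r (a z) - β (a z') * r (a z')) : ℝ)) : ℂ) * db (fderiv ℝ h z)‖ ≤
        L * K₁ * ‖z - z'‖ := by
      rw [norm_mul, norm_real, norm_mul, Real.norm_of_nonneg hw0.le, Real.norm_eq_abs]
      have h3 := hL (a z) (a z')
      calc w * |β (a z) * r (a z) - β (a z') * r (a z')| * ‖db (fderiv ℝ h z)‖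
          ≤ w * (L * (‖z - z'‖ / w)) * K₁ := by
            gcongr
            · exact h3.trans (by gcongr)
            · exact hdbB z
        _ = _ := by field_simp
    have h3 : ‖((w * (β (a z') * r (a z')) : ℝ) : ℂ) * (db (fderiv ℝ h z) - db (fderiv ℝ h z'))‖ ≤
        B * K₂ * ‖z - z'‖ := by
      rw [norm_mul, norm_real, norm_mul, Real.norm_of_nonneg hw0.le, norm_mul, Real.norm_eq_abs,
        Real.norm_eq_abs, abs_of_nonneg (hβ0 _)]
      have h4 := hK₂.dist_le_mul z z'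
      rw [dist_eq_norm, dist_eq_norm] at h4
      calc w * (β (a z') * |r (a z')|) * ‖db (fderiv ℝ h z) - db (fderiv ℝ h z')‖
          ≤ 1 * (1 * B) * (K₂ * ‖z - z'‖) := by
            gcongr
            · exact mul_nonneg (hβ0 _) (abs_nonneg _)
            · exact hβ1 _
            · exact hrB _
        _ = _ := by ring
    have := norm_add_le ((((w * (β (a z) * r (a z) - β (a z') * r (a z')) : ℝ)) : ℂ) * db (fderiv ℝ h z))
      (((w * (β (a z') * r (a z')) : ℝ) : ℂ) * (db (fderiv ℝ h z) - db (fderiv ℝ h z')))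
    calc _ ≤ 2 * (L * K₁ * ‖z - z'‖ + B * K₂ * ‖z - z'‖) := by linarith
      _ = _ := by ring
  have hF0' : ∀ z, R ≤ ‖z‖ → F z = 0 := by
    intro z hz
    apply hF0
    intro h1
    exact absurd (hR z h1) (not_lt.2 hz)
  obtain ⟨hu1, hu2⟩ := hη F hFs.continuous hFn hF0' hFl
  have hus := T_smooth hFs hFc
  have hud := T_dbar hFs hFc
  have huD : ∀ z, ‖dd (fderiv ℝ (T F) z)‖ ≤ ε / 2 := fun z =>
    (dd_norm _).trans (fderiv_of_lip (by positivity) hu2 z)
  have hfd : ∀ z, fderiv ℝ (fun z => g z - φ z - T F z) z =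
      fderiv ℝ g z - fderiv ℝ φ z - fderiv ℝ (T F) z := by
    intro z
    have h1 := ((hg.gs.differentiable (by simp)) z).hasFDerivAt
    have h2 := ((hφs.differentiable (by simp)) z).hasFDerivAt
    have h3 := ((hus.differentiable (by simp)) z).hasFDerivAt
    exact ((h1.sub h2).sub h3).fderiv
  have hh0 : ∀ z, z ∉ tsupport h → (1 - (β (a z) : ℂ)) * (h z + E z) = 0 := by
    intro z hz
    simp only [E]
    rw [db_supp hz, image_eq_zero_of_notMem_tsupport hz]
    ring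
  have hsub : tsupport (fun z => (1 - (β (a z) : ℂ)) * (h z + E z)) ⊆ tsupport h := by
    apply closure_minimal _ (isClosed_tsupport h)
    intro z hz
    by_contra h1
    exact hz (hh0 z h1)
  refine ⟨fun z => g z - φ z - T F z, fun z => (1 - (β (a z) : ℂ)) * (h z + E z), ⟨?_, ?_, ?_, ?_, ?_⟩,
    hsub, ?_, ?_⟩
  · exact (hg.gs.sub hφs).sub hus
  · exact (contDiff_const.sub hρs).mul (hg.hs.add hEE)
  · exact HasCompactSupport.intro hg.hc.isCompact hh0
  · intro z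
    rw [hfd, db_sub, db_sub, hud, hφdb, hg.hd]
    simp only [F, E]
    ring
  · intro z
    rw [hfd, dd_sub, dd_sub, hφdd]
    have h1 : ‖dd (fderiv ℝ g z) - (conj e * conj e * (β (a z) * h z) +
        (2 * conj e) * ((S z : ℂ) * dd (fderiv ℝ h z))) - dd (fderiv ℝ (T F) z)‖ ≤
        ‖dd (fderiv ℝ g z)‖ + β (a z) * ‖h z‖ + 2 * B * K₁ * w + ε / 2 := by
      have t1 := norm_sub_le (dd (fderiv ℝ g z) - (conj e * conj e * (β (a z) * h z) +
        (2 * conj e) * ((S z : ℂ) * dd (fderiv ℝ h z)))) (dd (fderiv ℝ (T F) z))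
      have t2 := norm_sub_le (dd (fderiv ℝ g z)) (conj e * conj e * (β (a z) * h z) +
        (2 * conj e) * ((S z : ℂ) * dd (fderiv ℝ h z)))
      have t3 := norm_add_le (conj e * conj e * (β (a z) * h z))
        ((2 * conj e) * ((S z : ℂ) * dd (fderiv ℝ h z)))
      have t4 : ‖conj e * conj e * (β (a z) * h z)‖ = β (a z) * ‖h z‖ := by
        rw [norm_mul, norm_mul, norm_mul, RCLike.norm_conj, he, norm_real, Real.norm_of_nonneg (hβ0 _)]
        ring
      have t5 : ‖(2 * conj e) * ((S z : ℂ) * dd (fderiv ℝ h z))‖ ≤ 2 * B * K₁ * w := by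
        rw [norm_mul, h2e, norm_mul, norm_real, Real.norm_eq_abs]
        have := hSB z
        have := hddB z
        calc 2 * (|S z| * ‖dd (fderiv ℝ h z)‖) ≤ 2 * ((w * B) * K₁) := by gcongr
          _ = _ := by ring
      have t6 := huD z
      linarith
    have h2 : ‖(1 - (β (a z) : ℂ)) * (h z + E z)‖ ≤ (1 - β (a z)) * ‖h z‖ + 2 * B * K₁ * w := by
      have t0 : (1 - (β (a z) : ℂ)) = ((1 - β (a z) : ℝ) : ℂ) := by push_cast; ring
      have t1 : 0 ≤ 1 - β (a z) := by linarith [hβ1 (a z)]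
      rw [t0, norm_mul, norm_real, Real.norm_of_nonneg t1]
      calc (1 - β (a z)) * ‖h z + E z‖ ≤ (1 - β (a z)) * (‖h z‖ + ‖E z‖) := by
            gcongr
            exact norm_add_le _ _
        _ = (1 - β (a z)) * ‖h z‖ + (1 - β (a z)) * ‖E z‖ := by ring
        _ ≤ (1 - β (a z)) * ‖h z‖ + 1 * (2 * B * K₁ * w) := by
            gcongr
            · linarith [hβ0 (a z)]
            · exact hEn z
        _ = _ := by ring
    have h3 := hg.hM z
    linarith
  · intro z hz hzc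
    have hopen : IsOpen {z : ℂ | |a z| < 1} := isOpen_lt (has.continuous.abs) continuous_const
    have hcl : tsupport (fun z => (1 - (β (a z) : ℂ)) * (h z + E z)) ⊆ {z : ℂ | |a z| < 1}ᶜ := by
      apply closure_minimal _ hopen.isClosed_compl
      intro y hy hy'
      apply hy
      simp only []
      rw [hβn (a y) (le_of_lt hy')]
      simp
    apply hcl hz
    have : a z = 0 := by
      simp only [a]
      rw [hℓ, hzc]
      simp
    show |a z| < 1
    rw [this]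
    simp
  · intro z
    have e1 : g z - φ z - T F z - g z = -(φ z + T F z) := by ring
    rw [e1, norm_neg]
    have h1 : ‖φ z‖ ≤ ε / 2 := by
      simp only [φ]
      rw [norm_mul, h2e, norm_mul, norm_real, Real.norm_eq_abs]
      have := hSB z
      have := hK₀ z
      calc 2 * (|S z| * ‖h z‖) ≤ 2 * ((w * B) * K₀) := by gcongr
        _ = 2 * B * K₀ * w := by ring
        _ ≤ ε / 2 := hwφ
    have := norm_add_le (φ z) (T F z)
    have := hu1 z
    linarith

end Pool.Agent.TH290.Cp
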