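import Pool.Agent.TH290.Cp.Ker

set_option autoImplicit false
open MeasureTheory Metric Set Filter Topology Complex
open scoped ContDiff ENNReal ComplexConjugate

namespace Pool.Agent.TH290.Cp

/-- the Cauchy transform -/
noncomputable def T (φ : ℂ → ℂ) (z : ℂ) : ℂ := (Real.pi : ℂ)⁻¹ * ∫ t, t⁻¹ * φ (z - t)

/-- `∂̄` of a real-linear map -/
noncomputable def db (L : ℂ →L[ℝ] ℂ) : ℂ := (L 1 + I * L I) / 2
/-- `∂` of a real-linear map -/
noncomputable def dd (L : ℂ →L[ℝ] ℂ) : ℂ := (L 1 - I * L I) / 2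

theorem T_smooth {φ : ℂ → ℂ} (hφ : ContDiff ℝ ∞ φ) (hc : HasCompactSupport φ) :
    ContDiff ℝ ∞ (T φ) := by
  unfold T
  exact contDiff_const.mul (Helper366.IV.zbar733 φ hφ hc).1

theorem T_dbar {φ : ℂ → ℂ} (hφ : ContDiff ℝ ∞ φ) (hc : HasCompactSupport φ) (z : ℂ) :
    db (fderiv ℝ (T φ) z) = φ z := by
  have h := Helper366.IV.zbar733 φ hφ hc
  have hd : DifferentiableAt ℝ (fun z => ∫ t, t⁻¹ * φ (z - t)) z :=
    (h.1.differentiable (by simp)) z
  have h2 := h.2 z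
  unfold db
  have e : T φ = fun z => (Real.pi : ℂ)⁻¹ * (fun z => ∫ t, t⁻¹ * φ (z - t)) z := rfl
  rw [e, fderiv_const_mul hd]
  simp only [_root_.smul_apply, smul_eq_mul]
  have hpi : (Real.pi : ℂ) ≠ 0 := by exact_mod_cast Real.pi_ne_zero
  have h3 : ((Real.pi : ℂ)⁻¹ * fderiv ℝ (fun z => ∫ t, t⁻¹ * φ (z - t)) z 1 +
      I * ((Real.pi : ℂ)⁻¹ * fderiv ℝ (fun z => ∫ t, t⁻¹ * φ (z - t)) z I)) / 2 =
      (Real.pi : ℂ)⁻¹ * ((fderiv ℝ (fun z => ∫ t, t⁻¹ * φ (z - t)) z 1 +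
      I * fderiv ℝ (fun z => ∫ t, t⁻¹ * φ (z - t)) z I) / 2) := by ring
  rw [h3, h2]
  field_simp

section bounds
variable {φ : ℂ → ℂ} {s η Λ R : ℝ}

theorem int_near (hφ : Continuous φ) (hη : ∀ z, ‖φ z‖ ≤ η) (hs : 0 < s) (z : ℂ) :
    Integrable (fun t => kN s t * φ (z - t)) := by
  have h := (kN_int hs).bdd_mul (c := η) (f := fun t => φ (z - t))
    (hφ.comp (by fun_prop)).aestronglyMeasurable (ae_of_all _ (fun t => hη _))
  refine h.congr (ae_of_all _ fun t => ?_)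
  simp [mul_comm]

theorem int_phi (hφ : Continuous φ) (hR : ∀ z, R ≤ ‖z‖ → φ z = 0) : Integrable φ := by
  apply hφ.integrable_of_hasCompactSupport
  refine HasCompactSupport.of_support_subset_isCompact (isCompact_closedBall 0 R) ?_
  intro z hz
  by_contra h
  simp at h
  exact hz (hR z h.le)

theorem int_far (hφ : Continuous φ) (hR : ∀ z, R ≤ ‖z‖ → φ z = 0) (hs : 0 < s) (z : ℂ) :
    Integrable (fun t => kF s (z - t) * φ t) := by
  have h := (int_phi hφ hR).bdd_mul (c := s⁻¹) (f := fun t => kF s (z - t))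
    ((kF_cont hs).comp (by fun_prop)).aestronglyMeasurable (ae_of_all _ (fun t => kF_norm hs _))
  exact h

theorem int_norm (hφ : Continuous φ) (hη : ∀ z, ‖φ z‖ ≤ η) (hR : ∀ z, R ≤ ‖z‖ → φ z = 0)
    (hR0 : 0 < R) : ∫ t, ‖φ t‖ ≤ η * (Real.pi * R ^ 2) := by
  have e : ∫ t, ‖φ t‖ = ∫ t in ball (0:ℂ) R, ‖φ t‖ := by
    rw [setIntegral_eq_integral_of_forall_compl_eq_zero]
    intro x hx
    rw [hR x (by simpa using hx), norm_zero]
  rw [e]
  have h1 : ∫ t in ball (0:ℂ) R, ‖φ t‖ ≤ ∫ t in ball (0:ℂ) R, η := by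
    refine integral_mono_ae (int_phi hφ hR).norm.integrableOn ?_ (ae_of_all _ hη)
    exact integrableOn_const (measure_ball_lt_top.ne)
  refine h1.trans (le_of_eq ?_)
  rw [setIntegral_const]
  have e3 : (volume : Measure ℂ).real (ball 0 R) = Real.pi * R ^ 2 := by
    simp [Measure.real, Complex.volume_ball, hR0.le]
    ring
  rw [e3, smul_eq_mul]
  ring

theorem T_split (hφ : Continuous φ) (hη : ∀ z, ‖φ z‖ ≤ η) (hR : ∀ z, R ≤ ‖z‖ → φ z = 0)
    (hs : 0 < s) (z : ℂ) :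
    T φ z = (Real.pi : ℂ)⁻¹ * ((∫ t, kN s t * φ (z - t)) + ∫ t, kF s (z - t) * φ t) := by
  unfold T
  congr 1
  have h1 : ∫ t, kF s (z - t) * φ t = ∫ t, kF s t * φ (z - t) := by
    rw [← integral_sub_left_eq_self (fun t => kF s (z - t) * φ t) volume z]
    simp
  have h2 : Integrable (fun t => kF s t * φ (z - t)) := by
    have := (int_far hφ hR hs z).comp_sub_left z
    simpa using this
  rw [h1, ← integral_add (int_near hφ hη hs z) h2]
  congr 1
  funext t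
  unfold kN
  ring

theorem T_sup (hφ : Continuous φ) (hη : ∀ z, ‖φ z‖ ≤ η) (hR : ∀ z, R ≤ ‖z‖ → φ z = 0)
    (hR0 : 0 < R) (z : ℂ) : ‖T φ z‖ ≤ η * (2 + R ^ 2) := by
  have hη0 : 0 ≤ η := (norm_nonneg _).trans (hη 0)
  rw [T_split hφ hη hR one_pos z, norm_mul, norm_inv, norm_real, Real.norm_of_nonneg Real.pi_pos.le]
  have h1 : ‖∫ t, kN 1 t * φ (z - t)‖ ≤ η * (2 * Real.pi * 1) := by
    refine (norm_integral_le_integral_norm _).trans ?_
    have : ∫ t, ‖kN 1 t * φ (z - t)‖ ≤ ∫ t, ‖kN 1 t‖ * η := by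
      refine integral_mono_ae (int_near hφ hη one_pos z).norm ((kN_int one_pos).norm.mul_const η)
        (ae_of_all _ fun t => ?_)
      simp only [norm_mul]
      gcongr
      exact hη _
    refine this.trans ?_
    rw [integral_mul_const, mul_comm]
    have := kN_val one_pos
    gcongr
  have h2 : ‖∫ t, kF 1 (z - t) * φ t‖ ≤ η * (Real.pi * R ^ 2) := by
    refine (norm_integral_le_integral_norm _).trans ?_
    refine le_trans ?_ (int_norm hφ hη hR hR0)
    refine integral_mono_ae (int_far hφ hR one_pos z).norm (int_phi hφ hR).norm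
        (ae_of_all _ fun t => ?_)
    simp only [norm_mul]
    have := kF_norm one_pos (z - t)
    rw [inv_one] at this
    calc ‖kF 1 (z - t)‖ * ‖φ t‖ ≤ 1 * ‖φ t‖ := by gcongr
      _ = _ := one_mul _
  calc Real.pi⁻¹ * ‖(∫ t, kN 1 t * φ (z - t)) + ∫ t, kF 1 (z - t) * φ t‖
      ≤ Real.pi⁻¹ * (η * (2 * Real.pi * 1) + η * (Real.pi * R ^ 2)) := by
        have := Real.pi_pos
        gcongr
        exact (norm_add_le _ _).trans (add_le_add h1 h2)
    _ = η * (2 + R ^ 2) := by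
        have := Real.pi_ne_zero
        field_simp

theorem T_lip (hφ : Continuous φ) (hη : ∀ z, ‖φ z‖ ≤ η) (hR : ∀ z, R ≤ ‖z‖ → φ z = 0)
    (hR0 : 0 < R) (hΛ : ∀ z w, ‖φ z - φ w‖ ≤ Λ * ‖z - w‖) (hs : 0 < s) (z w : ℂ) :
    ‖T φ z - T φ w‖ ≤ (2 * s * Λ + 3 / s ^ 2 * (η * R ^ 2)) * ‖z - w‖ := by
  have hη0 : 0 ≤ η := (norm_nonneg _).trans (hη 0)
  have hΛ0 : 0 ≤ Λ := by
    have := (norm_nonneg _).trans (hΛ 1 0)
    simpa using this
  rw [T_split hφ hη hR hs z, T_split hφ hη hR hs w, ← mul_sub, norm_mul, norm_inv, norm_real,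
    Real.norm_of_nonneg Real.pi_pos.le]
  have h1 : ‖(∫ t, kN s t * φ (z - t)) - ∫ t, kN s t * φ (w - t)‖ ≤
      2 * Real.pi * s * (Λ * ‖z - w‖) := by
    rw [← integral_sub (int_near hφ hη hs z) (int_near hφ hη hs w)]
    refine (norm_integral_le_integral_norm _).trans ?_
    have : ∫ t, ‖kN s t * φ (z - t) - kN s t * φ (w - t)‖ ≤ ∫ t, ‖kN s t‖ * (Λ * ‖z - w‖) := by
      refine integral_mono_ae ((int_near hφ hη hs z).sub (int_near hφ hη hs w)).norm
        ((kN_int hs).norm.mul_const _) (ae_of_all _ fun t => ?_)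
      simp only [← mul_sub, norm_mul]
      gcongr
      have := hΛ (z - t) (w - t)
      simpa using this
    refine this.trans ?_
    rw [integral_mul_const]
    have := kN_val hs
    gcongr
  have h2 : ‖(∫ t, kF s (z - t) * φ t) - ∫ t, kF s (w - t) * φ t‖ ≤
      3 / s ^ 2 * ‖z - w‖ * (η * (Real.pi * R ^ 2)) := by
    rw [← integral_sub (int_far hφ hR hs z) (int_far hφ hR hs w)]
    refine (norm_integral_le_integral_norm _).trans ?_
    have : ∫ t, ‖kF s (z - t) * φ t - kF s (w - t) * φ t‖ ≤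
        ∫ t, (3 / s ^ 2 * ‖z - w‖) * ‖φ t‖ := by
      refine integral_mono_ae ((int_far hφ hR hs z).sub (int_far hφ hR hs w)).norm
        ((int_phi hφ hR).norm.const_mul _) (ae_of_all _ fun t => ?_)
      simp only [← sub_mul, norm_mul]
      gcongr
      have := kF_lip hs (z - t) (w - t)
      simpa using this
    refine this.trans ?_
    rw [integral_const_mul]
    have := int_norm hφ hη hR hR0
    gcongr
  calc Real.pi⁻¹ * ‖((∫ t, kN s t * φ (z - t)) + ∫ t, kF s (z - t) * φ t) -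
        ((∫ t, kN s t * φ (w - t)) + ∫ t, kF s (w - t) * φ t)‖
      ≤ Real.pi⁻¹ * (2 * Real.pi * s * (Λ * ‖z - w‖) +
          3 / s ^ 2 * ‖z - w‖ * (η * (Real.pi * R ^ 2))) := by
        have := Real.pi_pos
        gcongr
        rw [add_sub_add_comm]
        exact (norm_add_le _ _).trans (add_le_add h1 h2)
    _ = _ := by
        have := Real.pi_ne_zero
        field_simp

end bounds

/-- Soft form: small sup norm and bounded Lipschitz constant give a small Cauchy transform in `C¹`. -/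
theorem T_small {Λ R ε : ℝ} (hR0 : 0 < R) (hΛ0 : 0 ≤ Λ) (hε : 0 < ε) :
    ∃ η : ℝ, 0 < η ∧ ∀ φ : ℂ → ℂ, Continuous φ → (∀ z, ‖φ z‖ ≤ η) → (∀ z, R ≤ ‖z‖ → φ z = 0) →
      (∀ z w, ‖φ z - φ w‖ ≤ Λ * ‖z - w‖) →
      (∀ z, ‖T φ z‖ ≤ ε) ∧ ∀ z w, ‖T φ z - T φ w‖ ≤ ε * ‖z - w‖ := by
  set s : ℝ := ε / (4 * (Λ + 1)) with hs
  have hs0 : 0 < s := by positivity
  have hsΛ : 2 * s * Λ ≤ ε / 2 := by
    have : 2 * s * Λ = ε / 2 * (Λ / (Λ + 1)) := by
      rw [hs]
      field_simp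
      ring
    rw [this]
    have h1 : Λ / (Λ + 1) ≤ 1 := by
      rw [div_le_one (by positivity)]
      linarith
    calc ε / 2 * (Λ / (Λ + 1)) ≤ ε / 2 * 1 := by gcongr
      _ = ε / 2 := mul_one _
  set η : ℝ := min (ε / (2 + R ^ 2)) (ε / 2 * (s ^ 2 / (3 * R ^ 2))) with hη
  have hη0 : 0 < η := by
    rw [hη]
    apply lt_min <;> positivity
  refine ⟨η, hη0, fun φ hφ h1 h2 h3 => ⟨fun z => ?_, fun z w => ?_⟩⟩
  · refine (T_sup hφ h1 h2 hR0 z).trans ?_
    calc η * (2 + R ^ 2) ≤ ε / (2 + R ^ 2) * (2 + R ^ 2) := by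
          gcongr
          exact min_le_left _ _
      _ = ε := by field_simp
  · refine (T_lip hφ h1 h2 hR0 h3 hs0 z w).trans ?_
    gcongr
    have h4 : 3 / s ^ 2 * (η * R ^ 2) ≤ ε / 2 := by
      calc 3 / s ^ 2 * (η * R ^ 2) ≤ 3 / s ^ 2 * ((ε / 2 * (s ^ 2 / (3 * R ^ 2))) * R ^ 2) := by
            gcongr
            exact min_le_right _ _
        _ = ε / 2 := by field_simp
    linarith

end Pool.Agent.TH290.Cp
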